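import Pool.Agent.MP_9ab903_nt.A3.ADefs
import Pool.Agent.MP_9ab903_nt.AN.A6

set_option autoImplicit false

open scoped ComplexConjugate
open Filter Topology CM27 BS3

namespace SB3

/-! ## [SB3-A1] the constant of `XX_F` (file A1.lean) -/

/-- the principal part of `Fz` at a pole (as `Fz_pole`, with the residue) -/
private theorem q1_pole (z0 : ℂ) (a0 e0 : Eis) (he0 : e0 ∈ U6)
    (hz0 : 3 * (z0 + emb a0) + emb e0 = 0) : ∃ h : ℂ → ℂ, AnalyticAt ℂ h z0 ∧
    ∀ᶠ z in 𝓝[≠] z0, Fz z = emb e0 / (z - z0) + h z := by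
  classical
  have ha0 : 729 * (z0 + emb a0) ^ 6 = 1 := by
    have h1 : z0 + emb a0 = -(emb e0 / 3) := by linear_combination (1 / 3) * hz0
    rw [h1, Even.neg_pow (by decide), div_pow, f0_pow e0 he0]
    norm_num
  obtain ⟨F, S, hF, hS, hsum⟩ := f1_tail (‖z0‖ + 1) (by linarith [norm_nonneg z0])
  have hzb : z0 ∈ Metric.ball (0 : ℂ) (‖z0‖ + 1) := by
    rw [mem_ball_zero_iff]; linarith
  have haF : a0 ∈ F := by
    by_contra hcon
    have h1 := f1_low (‖z0‖ + 1) (by linarith [norm_nonneg z0]) a0 (hF a0 hcon) z0 (by linarith)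
    rw [ha0, sub_self, norm_zero] at h1
    have h2 := hF a0 hcon
    have h3 : 0 < ‖emb a0‖ := by linarith [norm_nonneg z0]
    have : 0 < ‖emb a0‖ ^ 6 := by positivity
    linarith
  have hother : ∀ a, a ≠ a0 → 729 * (z0 + emb a) ^ 6 ≠ 1 := by
    intro a ha h1
    obtain ⟨e, he, h2⟩ := f0_root _ h1
    exact ha (f1_unique z0 a a0 e e0 he he0 h2 hz0).1
  have hoe : ∀ e ∈ U6.erase e0, z0 + emb a0 + emb e / 3 ≠ 0 := by
    intro e he h1
    rw [Finset.mem_erase] at he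
    exact he.1 (f1_unique z0 a0 a0 e e0 he.2 he0 (by linear_combination 3 * h1) hz0).2
  refine ⟨fun z => ∑ e ∈ U6.erase e0, emb e * (z + emb a0 + emb e / 3)⁻¹ +
    (∑ a ∈ F.erase a0, -18 * (729 * (z + emb a) ^ 6 - 1)⁻¹ + S z), ?_, ?_⟩
  · refine AnalyticAt.add (Finset.analyticAt_fun_sum _ fun e he => ?_)
      (AnalyticAt.add (Finset.analyticAt_fun_sum _ fun a ha =>
        f1_term_analytic a z0 (hother a (Finset.ne_of_mem_erase ha)))
        (hS.analyticAt (Metric.isOpen_ball.mem_nhds hzb)))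
    refine analyticAt_const.mul (AnalyticAt.inv ?_ (hoe e he))
    exact (analyticAt_id.add analyticAt_const).add analyticAt_const
  · have c1 : ∀ᶠ z in 𝓝[≠] z0, z ∈ Metric.ball (0 : ℂ) (‖z0‖ + 1) :=
      nhdsWithin_le_nhds (Metric.isOpen_ball.mem_nhds hzb)
    have c2 : ∀ᶠ z in 𝓝[≠] z0, z ≠ z0 := eventually_mem_nhdsWithin
    have c3 : ∀ᶠ z in 𝓝[≠] z0, ∀ e ∈ U6.erase e0, z + emb a0 + emb e / 3 ≠ 0 := by
      refine nhdsWithin_le_nhds ?_
      rw [← Filter.Eventually, Filter.eventually_all_finset]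
      intro e he
      exact ((continuous_id.add continuous_const).add
        continuous_const).continuousAt.eventually_ne (hoe e he)
    filter_upwards [c1, c2, c3] with z hz hzz hze
    have h0 : z + emb a0 + emb e0 / 3 = z - z0 := by linear_combination (1 / 3) * hz0
    have hne : 729 * (z + emb a0) ^ 6 ≠ 1 := by
      intro h1
      obtain ⟨e, he, h2⟩ := f0_root _ h1
      by_cases hee : e = e0
      · subst hee
        apply hzz
        linear_combination (1 / 3) * h2 - (1 / 3) * hz0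
      · exact hze e (Finset.mem_erase.2 ⟨hee, he⟩) (by linear_combination (1 / 3) * h2)
    rw [hsum z hz, ← Finset.add_sum_erase F _ haF, ← six_sum (z + emb a0) hne,
      ← Finset.add_sum_erase U6 _ he0, h0]
    ring

private theorem q1_XX (z : ℂ) : XX z = xw z ^ 3 := by
  have h1 := OmC_ne
  have h2 : L0.g₃ = -OmC ^ 6 := by rw [OmC_pow, neg_neg]
  rw [XX, xw, h2, div_pow]
  field_simp

private theorem q1_third : xw (1 / 3) = -1 := by
  have h1 : conj (1 / 3 : ℂ) = 1 / 3 := by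
    rw [map_div₀, map_one, map_ofNat]
  have h2 := xw_conj (1 / 3)
  rw [h1] at h2
  obtain ⟨r, hr⟩ := Complex.conj_eq_iff_real.1 h2.symm
  have h3 := third.1
  rw [hr] at h3 ⊢
  have h4 : r ^ 3 = -1 := by exact_mod_cast h3
  have h5 : (r + 1) * (r ^ 2 - r + 1) = 0 := by linear_combination h4
  have h6 : r = -1 := by
    rcases mul_eq_zero.1 h5 with h | h
    · linarith
    · nlinarith [sq_nonneg (2 * r - 1)]
  rw [h6]
  norm_num

theorem XX_F_const : ∃ K : ℂ, K ^ 2 = 27 * (Om : ℂ) ^ 2 ∧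
    ∀ z, z ∉ Set.range emb → NP z → (Fz z - Fz 0) * (1 + XX z) = K := by
  obtain ⟨K, -, hK⟩ := XX_F
  refine ⟨K, ?_, hK⟩
  have hU : (⟨-1, 0⟩ : Eis) ∈ U6 := by simp [U6]
  obtain ⟨h, hh, hl⟩ := q1_pole (1 / 3) 0 ⟨-1, 0⟩ hU (by rw [map_zero, f0_e2]; norm_num)
  rw [f0_e2] at hl
  -- the derivative of `XX`
  have hd : HasDerivAt XX (3 * xw (1 / 3) ^ 2 * (OmC * yw (1 / 3))) (1 / 3) := by
    have h1 := (xw_deriv (1 / 3) a6_third_not_mem).fun_pow 3
    have h2 : XX = fun z => xw z ^ 3 := funext q1_XX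
    rw [h2]
    refine h1.congr_deriv ?_
    push_cast
    ring
  have hs := hasDerivAt_iff_tendsto_slope.1 hd
  have ht : Tendsto (fun z => -1 + (z - 1 / 3) * (h z - Fz 0)) (𝓝[≠] (1 / 3 : ℂ)) (𝓝 (-1)) := by
    have h1 : ContinuousAt (fun z => -1 + (z - 1 / 3) * (h z - Fz 0)) (1 / 3 : ℂ) := by
      have := hh.continuousAt
      fun_prop
    have h2 := h1.tendsto.mono_left (nhdsWithin_le_nhds (s := {(1 / 3 : ℂ)}ᶜ))
    simpa using h2
  have hp := ht.mul hs
  have hc : Tendsto (fun _ : ℂ => K) (𝓝[≠] (1 / 3 : ℂ)) (𝓝 K) := tendsto_const_nhds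
  have hKe : K = -1 * (3 * xw (1 / 3) ^ 2 * (OmC * yw (1 / 3))) := by
    refine tendsto_nhds_unique hc (hp.congr' ?_)
    filter_upwards [hl, f2_near (1 / 3), self_mem_nhdsWithin] with z h1 h2 h3
    have h4 : z - 1 / 3 ≠ 0 := sub_ne_zero.2 h3
    rw [← hK z h2.1 h2.2, h1, slope_def_field, x0_third]
    generalize z - 1 / 3 = d at h4
    field_simp
    ring
  have h27 := third.2
  rw [hKe, q1_third]
  have hO : OmC ^ 2 = -(Om : ℂ) ^ 2 := by
    rw [OmC, mul_pow, Complex.I_sq]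
    ring
  linear_combination 9 * yw (1 / 3) ^ 2 * hO - 9 * (Om : ℂ) ^ 2 * h27

end SB3
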