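import Pool.Agent.MP_9ab903_nt.A3.ADefs
import Pool.Agent.MP_ae0bd0_nt.B3.N1
import Pool.Agent.MP_ae0bd0_nt.B3.S2

set_option autoImplicit false

open scoped ComplexConjugate
open Filter Topology CM27 BS3

namespace SB3

/-! ## [SB3-A2] sums with `Fst`, the value at `1`, the valuation of the algebraic part
(file A2.lean) -/

theorem sum_SK (M : ℕ) (hM : 1 < M) (h3 : ¬ 3 ∣ M) (K : ℂ)
    (hK : ∀ z, z ∉ Set.range emb → NP z → (Fz z - Fz 0) * (1 + XX z) = K)
    (ψ : Eis → ℂ) (hψ : IsCh M ψ) (h0 : rsum M ψ = 0) :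
    rsum M (fun v => ψ v * Fst (emb v / M)) = K * SK M ψ := by
  have hM0 : M ≠ 0 := by omega
  set C : ℂ := Fst (emb 1 / M) - Fz (emb 1 / M) + Fz 0 with hC
  have key : ∀ v : Eis, ψ v * Fst (emb v / M) =
      C * ψ v + K * (ψ v * (1 + XX (emb v / M))⁻¹) := by
    intro v
    by_cases hv : IsCoprime v (M : Eis)
    · have h1 := Fst_sub (emb v / M) (emb 1 / M) (n1_tors M hM0 v) (n1_tors M hM0 1)
        (NP_of M h3 _ (n1_mul M hM0 v)) (NP_of M h3 _ (n1_mul M hM0 1))
      have h2 := hK (emb v / M) (n1_notmem M hM v hv) (NP_of M h3 _ (n1_mul M hM0 v))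
      obtain ⟨h4, -⟩ := inv_one_add M h3 (emb v / M) (n1_mul M hM0 v) (n1_notmem M hM v hv)
      have h6 : Fz (emb v / M) - Fz 0 = K * (1 + XX (emb v / M))⁻¹ := by
        rw [← h2, mul_assoc, mul_inv_cancel₀ h4, mul_one]
      rw [hC]
      linear_combination (ψ v) * h1 + (ψ v) * h6
    · rw [hψ.zero v hv]
      ring
  rw [n1_rsum_congr M _ _ key, n1_rsum_add, n1_rsum_smul, n1_rsum_smul, h0, mul_zero, zero_add]
  rfl

theorem L_value {M : ℕ} (hM : M ≠ 0) (h3 : ¬ 3 ∣ M) {φ : Eis → ℂ} (hφ : IsCh M φ) :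
    ∃ Φ : ℂ → ℂ, Differentiable ℂ Φ ∧
      (∀ s : ℂ, 3 / 2 < s.re → LSeriesSummable (cf φ) s ∧ Φ s = LSeries (cf φ) s) ∧
      ∃ e : ℤ, e ^ 2 = 1 ∧
        Φ 1 = e * φ 3 / (18 * M) * rsum M (fun v => φ v * Fst (emb v / M)) := by
  obtain ⟨u, hu, hu3⟩ := s2_u M h3
  have hM' : (M : ℂ) ≠ 0 := by exact_mod_cast hM
  have h3M : (3 * M : ℂ) ≠ 0 := mul_ne_zero three_ne_zero hM'
  have key := fun v : Eis => Kr_spec (emb v / M + u / 3) (s2_tors M hM u v)
  choose Φ hΦ1 hΦ2 hΦ3 using key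
  refine ⟨fun s => φ 3 * (3 * M : ℂ) ^ (1 - 2 * s) * rsum M (fun v => φ v * Φ v s), ?_, ?_, ?_⟩
  · have h1 : Differentiable ℂ fun s : ℂ => (3 * M : ℂ) ^ (1 - 2 * s) := by
      intro s
      exact ((differentiableAt_const _).sub ((differentiableAt_const _).mul
        differentiableAt_id)).const_cpow (Or.inl h3M)
    have h2 : Differentiable ℂ fun s : ℂ => rsum M (fun v => φ v * Φ v s) := by
      unfold rsum
      refine Differentiable.fun_sum fun i _ => Differentiable.fun_sum fun j _ => ?_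
      exact (hΦ1 _).const_mul _
    exact ((differentiable_const _).mul h1).mul h2
  · intro s hs
    obtain ⟨h1, h2⟩ := series hM hφ u hu hu3 s hs
    refine ⟨h1, ?_⟩
    rw [h2]
    have h3 : rsum M (fun v => φ v * Φ v s) =
        rsum M (fun v => φ v * Hs s (emb v / M + u / 3)) :=
      s2_rsum_congr M _ _ fun v => by rw [hΦ2 v s hs]
    change φ 3 * (3 * M : ℂ) ^ (1 - 2 * s) * rsum M (fun v => φ v * Φ v s) = _
    rw [h3]
  · refine ⟨u, ?_, ?_⟩
    · rcases hu with rfl | rfl <;> norm_num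
    · have h1 := s2_average hM hφ u hu
      have h2 : rsum M (fun v => φ v * Φ v 1) = rsum M (fun v => φ v * Kr (emb v / M + u / 3)) :=
        s2_rsum_congr M _ _ fun v => by rw [hΦ3]
      have h4 : (3 * M : ℂ) ^ (1 - 2 * (1 : ℂ)) = (3 * M : ℂ)⁻¹ := by
        rw [show (1 - 2 * (1 : ℂ)) = -1 by norm_num, Complex.cpow_neg_one]
      change φ 3 * (3 * M : ℂ) ^ (1 - 2 * (1 : ℂ)) * rsum M (fun v => φ v * Φ v 1) = _
      rw [h2, h4]
      have h5 : (u : ℂ) * φ 3 / (18 * M) = φ 3 * (3 * M : ℂ)⁻¹ * (u / 6) := by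
        field_simp
        ring
      rw [h5]
      linear_combination (φ 3 * (3 * M : ℂ)⁻¹ / 6) * h1

/-- The character sum vanishes. -/
theorem rsum_zero (m : ℕ) (hm : Good m) (φ : Eis → ℂ) (hφ : IsCh (4 * m) φ) (n : ℕ)
    (hχ : ∀ a, IsCoprime a ((4 * m : ℕ) : Eis) → (φ a * ch4 a) ^ 3 ^ n = 1) :
    rsum (4 * m) φ = 0 := by
  have hm0 : m ≠ 0 := hm.1.ne_zero
  have hM0 : 4 * m ≠ 0 := by omega
  obtain ⟨a0, ha0, ha1⟩ := n1_exists m (n1_odd_m m hm)
  refine rsum_ch hM0 hφ a0 ha0 ?_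
  intro h1
  have h2 := hχ a0 ha0
  rw [h1, ha1, one_mul, Odd.neg_one_pow (Odd.pow (by decide))] at h2
  norm_num at h2

theorem SK_val (A : ValuationSubring ℂ) (hA : A.valuation 3 < 1) (m : ℕ) (hm : Good m)
    (φ : Eis → ℂ) (hφ : IsCh (4 * m) φ) (n : ℕ)
    (hχ : ∀ a, IsCoprime a ((4 * m : ℕ) : Eis) → (φ a * ch4 a) ^ 3 ^ n = 1) :
    A.valuation (SK (4 * m) φ) ^ 2 = A.valuation 3 := by
  classical
  have hm0 : m ≠ 0 := hm.1.ne_zero
  have hs1 := rsum_zero m hm φ hφ n hχ
  set M : ℕ := 4 * m with hMdef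
  have hM1 : 1 < M := by omega
  have hM0 : M ≠ 0 := by omega
  have h4M : 4 ∣ M := ⟨m, rfl⟩
  have h3M : ¬ 3 ∣ M := n1_not_three m hm
  obtain ⟨K, hK0, hK⟩ := XX_F
  obtain ⟨a0, ha0, ha1⟩ := n1_exists m (n1_odd_m m hm)
  have hbase := n1_isCh_base M h4M
  have hs2 : rsum M (n1_base M) = 0 := by
    refine rsum_ch hM0 hbase a0 ha0 ?_
    rw [n1_base, if_pos ha0, ha1]
    norm_num
  have e2 := n1_sum M hM1 h3M K hK (n1_base M) hbase hs2
  set H : ℂ := rsum M (fun v => φ v * hh (emb v / M)) with hH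
  set H0 : ℂ := rsum M (fun v => n1_base M v * hh (emb v / M)) with hH0
  -- the base sum
  obtain ⟨P, hP, hPv⟩ := TS_level m hm
  have e3 : rsum M (fun v => n1_base M v * Fst (emb v / M)) = P * TS 4 := by
    rw [← hP, TS_rsum M hM0 h4M]
    refine n1_rsum_congr M _ _ fun v => ?_
    rw [n1_base]
    split_ifs
    · rfl
    · rw [zero_mul]
  rw [TS_four, Fst_four K hK] at e3
  set k : ℂ := (1 + XX (1 / 4))⁻¹ - (1 + XX ((2 + w) / 4))⁻¹ with hk
  have hk2 : k ^ 2 = 4 / 3 := k_four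
  have hth : emb th ^ 2 = -3 := by
    have h1 : emb th = 1 + 2 * w := by rw [emb_apply, th]; push_cast; ring
    rw [h1]
    linear_combination 4 * w_sq
  have e4 : -(4 * emb th / 3) * H0 = P * 6 * k := by
    have h1 : (-(4 * emb th / 3) * K) * H0 = P * (6 * (K * k)) := by rw [← e2, e3]
    have h2 : K * (-(4 * emb th / 3) * H0) = K * (P * 6 * k) := by linear_combination h1
    exact mul_left_cancel₀ hK0 h2
  -- valuations
  have hv0 : A.valuation (3 : ℂ) ≠ 0 := by
    rw [_root_.map_ne_zero]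
    norm_num
  have hv2 : A.valuation (2 : ℂ) = 1 := by
    have := val_int3 A hA 2 (by norm_num)
    exact_mod_cast this
  have hv4 : A.valuation (4 : ℂ) = 1 := by
    have := val_int3 A hA 4 (by norm_num)
    exact_mod_cast this
  have hv6 : A.valuation (6 : ℂ) = A.valuation 3 := by
    have : (6 : ℂ) = 2 * 3 := by norm_num
    rw [this, map_mul, hv2, one_mul]
  have hvH0 : A.valuation H0 = A.valuation 6 := by
    have h1 : (16 * (emb th ^ 2) / 9) * H0 ^ 2 = (P ^ 2 * 36) * k ^ 2 := by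
      linear_combination (-(4 * emb th / 3) * H0 + P * 6 * k) * e4
    rw [hth, hk2] at h1
    have h2 : H0 ^ 2 * 4 = - (P ^ 2 * 6 ^ 2) := by linear_combination (-3 / 4 : ℂ) * h1
    have h3 := congrArg A.valuation h2
    rw [Valuation.map_neg, map_mul, map_pow, map_mul, map_pow, map_pow, hv4, hPv A hA, mul_one,
      one_pow, one_mul] at h3
    exact (pow_left_inj₀ zero_le zero_le two_ne_zero).1 h3
  have hdiff : A.valuation (H - H0) < A.valuation 6 := by
    have h1 : H - H0 = rsum M (fun v => (φ v - n1_base M v) * hh (emb v / M)) := by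
      have h2 : rsum M (fun v => (φ v - n1_base M v) * hh (emb v / M)) =
          rsum M (fun v => φ v * hh (emb v / M) + (-1) * (n1_base M v * hh (emb v / M))) :=
        n1_rsum_congr M _ _ fun v => by ring
      rw [h2, n1_rsum_add, n1_rsum_smul, hH, hH0]
      ring
    rw [h1]
    refine val_rsum_lt A M hM0 h4M _ ?_ ?_ ?_ ?_
    · intro a b
      have hM' : (M : ℂ) ≠ 0 := by exact_mod_cast hM0
      have h2 : emb (a + (M : Eis) * b) / M = emb a / M + emb b := by
        rw [map_add, map_mul, map_natCast]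
        field_simp
      simp only [hφ.per, hbase.per, h2, n1_hh_add]
    · intro u a hu
      have h2 : emb (u * a) / M = emb u * (emb a / M) := by
        rw [map_mul]; ring
      simp only [hφ.mul, hbase.mul, hφ.unit u hu, hbase.unit u hu, one_mul, h2,
        n1_hh_unit _ u hu]
    · intro a ha
      have h2 : ¬ IsCoprime a (M : Eis) := fun h => ha (n1_odd M h4M a h)
      rw [hφ.zero a h2, hbase.zero a h2]
      ring
    · intro a
      by_cases ha : IsCoprime a (M : Eis)
      · have h2 : φ a - n1_base M a = ch4 a * (φ a * ch4 a - 1) := by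
          rw [n1_base, if_pos ha]
          linear_combination (-φ a) * n1_ch4_sq a (n1_odd M h4M a ha)
        have h3 : A.valuation (ch4 a) ≤ 1 := by
          have h4 := n1_ch4_sq a (n1_odd M h4M a ha)
          have h5 := congrArg A.valuation h4
          rw [map_mul, map_one, ← sq] at h5
          exact (pow_le_one_iff_of_nonneg zero_le two_ne_zero).1 h5.le
        have h4 := (val_root3 A hA _ n (hχ a ha)).2
        have h5 := hh_val A hA M h3M (emb a / M) (n1_mul M hM0 a) (n1_notmem M hM1 a ha)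
        change A.valuation ((φ a - n1_base M a) * hh (emb a / M)) < 1
        rw [h2, map_mul, map_mul]
        calc A.valuation (ch4 a) * A.valuation (φ a * ch4 a - 1) * A.valuation (hh (emb a / M))
            ≤ 1 * A.valuation (φ a * ch4 a - 1) * 1 := by gcongr
          _ = A.valuation (φ a * ch4 a - 1) := by rw [one_mul, mul_one]
          _ < 1 := h4
      · change A.valuation ((φ a - n1_base M a) * hh (emb a / M)) < 1
        rw [hφ.zero a ha, hbase.zero a ha, sub_zero, zero_mul, map_zero]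
        exact zero_lt_one
  have hvH : A.valuation H = A.valuation 3 := by
    have h1 : A.valuation (H - H0) < A.valuation H0 := by rw [hvH0]; exact hdiff
    rw [Valuation.map_eq_of_sub_lt _ h1, hvH0, hv6]
  -- the sum in terms of `H`
  have key : ∀ v : Eis, φ v * (1 + XX (emb v / M))⁻¹ =
      (4 / 3) * φ v + (-(4 * emb th / 3)) * (φ v * hh (emb v / M)) := by
    intro v
    by_cases hv : IsCoprime v (M : Eis)
    · obtain ⟨-, h5⟩ := inv_one_add M h3M (emb v / M) (n1_mul M hM0 v) (n1_notmem M hM1 v hv)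
      rw [h5]
      ring
    · rw [hφ.zero v hv]
      ring
  have hSK : SK M φ = -(4 * emb th / 3) * H := by
    rw [SK, n1_rsum_congr M _ _ key, n1_rsum_add, n1_rsum_smul, n1_rsum_smul, hs1, mul_zero,
      zero_add]
  have hsq : SK M φ ^ 2 * 3 = -(4 ^ 2 * H ^ 2) := by
    rw [hSK]
    linear_combination (16 / 3 * H ^ 2) * hth
  have h5 := congrArg A.valuation hsq
  rw [Valuation.map_neg, map_mul, map_pow, map_mul, map_pow, map_pow, hv4, hvH, one_pow,
    one_mul, sq (A.valuation 3)] at h5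
  exact mul_right_cancel₀ hv0 h5

end SB3
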