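import Pool.Agent.MP_9ab903_nt.A3.ADefs
import Pool.Agent.MP_9ab903_nt.AN.A7

set_option autoImplicit false

open scoped ComplexConjugate
open Filter Topology CM27 BS3

namespace SB3

/-! ## [SB3-A3] the Galois action on the values `X(c / N)` (file A3.lean) -/

theorem XX_eq (z : ℂ) : XX z = xw z ^ 3 := by
  unfold XX xw
  rw [div_pow, ← pow_mul, OmC_pow, div_neg, neg_div]

theorem q3_XX_emb (a : Eis) : XX (emb a) = 0 := by
  have h1 := XX_add 0 a
  rw [zero_add] at h1
  rw [h1]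
  unfold XX
  rw [PeriodPair.weierstrassP_zero]
  simp

theorem q3_XX_neg (z : ℂ) : XX (-z) = XX z := by
  rw [XX_eq, XX_eq, xw_neg]

/-- The action on the points determines the action on `XX`. -/
theorem q3_key (σ : ℂ →+* ℂ) (z z' : ℂ) (h : ptMap σ (pt z) = pt z') : σ (XX z) = XX z' := by
  by_cases hz : z ∈ Set.range emb
  · have h0 : pt z = 0 := (pt_eq_zero_iff z).2 hz
    rw [h0] at h
    have h1 : pt z' = 0 := h.symm
    obtain ⟨a, rfl⟩ := hz
    obtain ⟨b, rfl⟩ := (pt_eq_zero_iff z').1 h1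
    rw [q3_XX_emb, q3_XX_emb, map_zero]
  · obtain ⟨hn, hp⟩ := pt_of_not_mem z hz
    rw [hp] at h
    by_cases hz' : z' ∈ Set.range emb
    · exfalso
      have h0 : pt z' = 0 := (pt_eq_zero_iff z').2 hz'
      rw [h0] at h
      exact WeierstrassCurve.Affine.Point.some_ne_zero _ h
    · obtain ⟨hn', hp'⟩ := pt_of_not_mem z' hz'
      rw [hp'] at h
      have h1 : σ (xw z) = xw z' := by
        have h2 := h
        simp only [ptMap, WeierstrassCurve.Affine.Point.some.injEq] at h2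
        exact h2.1
      rw [XX_eq, XX_eq, map_pow, h1]

theorem q3_third (N : ℕ) (hN : N ≠ 0) (c : Eis) :
    emb (3 * c) / ((3 * N : ℕ) : ℂ) = emb c / N := by
  have hN0 : (N : ℂ) ≠ 0 := by exact_mod_cast hN
  rw [map_mul, map_ofNat]
  push_cast
  field_simp

theorem q3_coprime (N : ℕ) (u u' : Eis) (h : ((3 * N : ℕ) : Eis) ∣ u * u' - 1) :
    IsCoprime u (N : Eis) := by
  obtain ⟨k, hk⟩ := h
  refine ⟨u', -(3 * k), ?_⟩
  push_cast at hk
  linear_combination hk

theorem gal_XX (N : ℕ) (hN : N ≠ 0) (σ : ℂ ≃+* ℂ) :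
    ∃ u : Eis, IsCoprime u (N : Eis) ∧ ActX N σ u := by
  have h3N : 0 < 3 * N := by omega
  have hx : σ w * σ w = -1 - σ w := by
    rw [← map_mul, w_sq, map_sub, map_neg, map_one]
  rcases a7_w_cases (σ w) hx with h | h
  · obtain ⟨u, u', h1, -, h4⟩ := gal_fix (3 * N) h3N (dvd_mul_right 3 N) σ h
    refine ⟨u, q3_coprime N u u' h1, Or.inl ⟨h, fun c => ?_⟩⟩
    have h5 := h4 (3 * c)
    rw [mul_assoc, q3_third N hN, q3_third N hN] at h5
    exact q3_key (σ : ℂ →+* ℂ) _ _ h5
  · set τ : ℂ ≃+* ℂ := (starRingAut : ℂ ≃+* ℂ).trans σ with hτ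
    have hτa : ∀ x, τ x = σ (conj x) := fun x => rfl
    have hwc : conj w = -1 - w := by
      apply Complex.ext
      · rw [Complex.conj_re, Complex.sub_re, Complex.neg_re, Complex.one_re, w_re]; norm_num
      · rw [Complex.conj_im, Complex.sub_im, Complex.neg_im, Complex.one_im]; ring
    have hτw : τ w = w := by
      rw [hτa, hwc, map_sub, map_neg, map_one, h, hwc]
      ring
    obtain ⟨u, u', h1, -, h4⟩ := gal_fix (3 * N) h3N (dvd_mul_right 3 N) τ hτw
    refine ⟨u, q3_coprime N u u' h1, Or.inr ⟨h, fun c => ?_⟩⟩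
    have hcomp : (σ : ℂ →+* ℂ) = (τ : ℂ →+* ℂ).comp (starRingEnd ℂ) := by
      ext x
      show σ x = τ (conj x)
      rw [hτa, Complex.conj_conj]
    have h5 : ptMap (σ : ℂ →+* ℂ) (pt (emb c / N)) = pt (emb (-(star c) * u) / N) := by
      rw [hcomp, ← ptMap_comp, ptMap_conj]
      have e : - conj (emb c / N) = emb (-(star c)) / N := by
        rw [map_div₀, Complex.conj_natCast, map_neg, emb_star]
        ring
      have h6 := h4 (3 * (-(star c)))
      rw [mul_assoc, q3_third N hN, q3_third N hN] at h6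
      rw [e]
      exact h6
    have h7 := q3_key (σ : ℂ →+* ℂ) _ _ h5
    rw [neg_mul, map_neg, neg_div, q3_XX_neg] at h7
    exact h7

/-- Passing to a divisor of the level. -/
theorem ActX_dvd (N M : ℕ) (hN : N ≠ 0) (hM : M ∣ N) (σ : ℂ ≃+* ℂ) (u : Eis)
    (h : ActX N σ u) : ActX M σ u := by
  obtain ⟨t, rfl⟩ := hM
  have hM0 : (M : ℂ) ≠ 0 := by
    have : M ≠ 0 := fun h0 => hN (by rw [h0, zero_mul])
    exact_mod_cast this
  have ht0 : (t : ℂ) ≠ 0 := by
    have : t ≠ 0 := fun h0 => hN (by rw [h0, mul_zero])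
    exact_mod_cast this
  have key : ∀ c : Eis, emb (c * t) / ((M * t : ℕ) : ℂ) = emb c / M := by
    intro c
    rw [map_mul, map_natCast]
    push_cast
    field_simp
  rcases h with ⟨h1, h2⟩ | ⟨h1, h2⟩
  · refine Or.inl ⟨h1, fun c => ?_⟩
    have h3 := h2 (c * t)
    rw [mul_right_comm, key, key] at h3
    exact h3
  · refine Or.inr ⟨h1, fun c => ?_⟩
    have h3 := h2 (c * t)
    have h4 : star (c * (t : Eis)) = star c * t := by
      rw [star_mul', star_natCast]
    rw [h4, mul_right_comm, key, key] at h3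
    exact h3

end SB3
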