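import Pool.Agent.MP_9ab903_nt.A3.ADefs

set_option autoImplicit false

open scoped ComplexConjugate
open Filter Topology CM27 BS3

namespace SB3

/-! ## [SB3-A4] the Galois action on `SK` (file A4.lean) -/

/-- the action of `star` on the residue classes -/
noncomputable def q4_star (M : ℕ) (q : s0_Q M) : s0_Q M :=
  Ideal.Quotient.mk _ (star (Quotient.out q))

theorem q4_star_mk (M : ℕ) (a : Eis) :
    q4_star M (Ideal.Quotient.mk _ a) = Ideal.Quotient.mk _ (star a) := by
  have h0 : (Ideal.Quotient.mk (Ideal.span {(M : Eis)})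
      (Quotient.out (Ideal.Quotient.mk (Ideal.span {(M : Eis)}) a)) : s0_Q M) =
      Ideal.Quotient.mk _ a := Quotient.out_eq _
  have h1 := (Ideal.Quotient.mk_eq_mk_iff_sub_mem _ _).1 h0
  obtain ⟨c, hc⟩ := Ideal.mem_span_singleton.1 h1
  unfold q4_star
  rw [Ideal.Quotient.mk_eq_mk_iff_sub_mem, Ideal.mem_span_singleton]
  refine ⟨star c, ?_⟩
  rw [← star_sub, hc, star_mul', star_natCast]

theorem q4_star_bij (M : ℕ) : Function.Bijective (q4_star M) := by
  refine Function.Involutive.bijective fun q => ?_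
  obtain ⟨a, rfl⟩ := Ideal.Quotient.mk_surjective q
  rw [q4_star_mk, q4_star_mk, star_star]

theorem rsum_star (M : ℕ) (hM : M ≠ 0) (f : Eis → ℂ) (hf : ∀ a b, f (a + (M : Eis) * b) = f a) :
    rsum M (fun v => f (star v)) = rsum M f := by
  have hf' : ∀ a b, (fun v => f (star v)) (a + (M : Eis) * b) = (fun v => f (star v)) a := by
    intro a b
    show f (star (a + (M : Eis) * b)) = f (star a)
    rw [star_add, star_mul', star_natCast, hf]
  rw [← s0_sum M hM f hf, ← s0_sum M hM _ hf',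
    ← finsum_comp_equiv (Equiv.ofBijective _ (q4_star_bij M)) (f := s0_F M f)]
  refine finsum_congr fun q => ?_
  obtain ⟨d, rfl⟩ := Ideal.Quotient.mk_surjective q
  rw [s0_F_mk (f := fun v => f (star v)) hf', Equiv.ofBijective_apply, q4_star_mk, s0_F_mk hf]

theorem q4_map_rsum (σ : ℂ ≃+* ℂ) (M : ℕ) (f : Eis → ℂ) :
    σ (rsum M f) = rsum M (fun v => σ (f v)) := by
  unfold rsum
  rw [map_sum]
  refine Finset.sum_congr rfl fun i _ => ?_
  rw [map_sum]

theorem q4_rsum_smul (M : ℕ) (c : ℂ) (f : Eis → ℂ) :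
    rsum M f * c = rsum M (fun v => c * f v) := by
  unfold rsum
  rw [Finset.sum_mul]
  refine Finset.sum_congr rfl fun i _ => ?_
  rw [Finset.sum_mul]
  exact Finset.sum_congr rfl fun j _ => mul_comm _ _

theorem q4_per (M : ℕ) (hM : M ≠ 0) (ψ' : Eis → ℂ) (hψ : IsCh M ψ') (u a b : Eis) :
    ψ' (a + (M : Eis) * b) * (1 + XX (emb ((a + (M : Eis) * b) * u) / M))⁻¹ =
      ψ' a * (1 + XX (emb (a * u) / M))⁻¹ := by
  have hM' : (M : ℂ) ≠ 0 := Nat.cast_ne_zero.2 hM
  have h1 : emb ((a + (M : Eis) * b) * u) / M = emb (a * u) / M + emb (b * u) := by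
    rw [map_mul, map_add, map_mul, map_natCast, map_mul, map_mul]
    field_simp
    try ring
  rw [hψ.per, h1, XX_add]

theorem SK_gal (M : ℕ) (hM : M ≠ 0) (σ : ℂ ≃+* ℂ) (u : Eis) (hu : IsCoprime u (M : Eis))
    (ψ ψ' : Eis → ℂ) (hψ : IsCh M ψ') (hx : ActX M σ u)
    (h1 : σ w = w → ∀ c, σ (ψ c) = ψ' c) (h2 : σ w = conj w → ∀ c, σ (ψ c) = ψ' (star c)) :
    σ (SK M ψ) * ψ' u = SK M ψ' := by
  have hper := q4_per M hM ψ' hψ
  have hg : rsum M (fun v => ψ' v * (1 + XX (emb (v * u) / M))⁻¹) * ψ' u = SK M ψ' := by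
    rw [q4_rsum_smul]
    have hf : ∀ a b : Eis, (fun v => ψ' v * (1 + XX (emb v / M))⁻¹) (a + (M : Eis) * b) =
        (fun v => ψ' v * (1 + XX (emb v / M))⁻¹) a := by
      intro a b
      have h := hper 1 a b
      rw [mul_one, mul_one] at h
      exact h
    have h3 := rsum_mul M hM (fun v => ψ' v * (1 + XX (emb v / M))⁻¹) hf u hu
    unfold SK
    rw [← h3]
    unfold rsum
    refine Finset.sum_congr rfl fun i _ => Finset.sum_congr rfl fun j _ => ?_
    dsimp only
    rw [hψ.mul, mul_comm u]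
    ring
  rw [← hg]
  congr 1
  unfold SK
  rw [q4_map_rsum]
  rcases hx with ⟨hw, hc⟩ | ⟨hw, hc⟩
  · unfold rsum
    refine Finset.sum_congr rfl fun i _ => Finset.sum_congr rfl fun j _ => ?_
    dsimp only
    rw [map_mul, map_inv₀, map_add, map_one, hc, h1 hw]
  · rw [← rsum_star M hM (fun v => ψ' v * (1 + XX (emb (v * u) / M))⁻¹) (hper u)]
    unfold rsum
    refine Finset.sum_congr rfl fun i _ => Finset.sum_congr rfl fun j _ => ?_
    dsimp only
    rw [map_mul, map_inv₀, map_add, map_one, hc, h2 hw]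

end SB3
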