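import Pool.Agent.MP_9ab903_nt.A3.ADefs

set_option autoImplicit false

open scoped ComplexConjugate
open Filter Topology CM27 BS3

namespace SB3

/-! ## [SB3-A5] the Galois action on the values of the characters (file A5.lean) -/

theorem q5_C3_star {e : Eis} (he : e ∈ C3) : star e ∈ C3 := by
  unfold C3 at he ⊢
  simp only [Finset.mem_insert, Finset.mem_singleton] at he ⊢
  rcases he with rfl | rfl | rfl
  · left
    decide
  · right; right
    decide
  · right; left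
    decide

theorem q5_emb (σ : ℂ ≃+* ℂ) (a : Eis) :
    (σ w = w → σ (emb a) = emb a) ∧ (σ w = conj w → σ (emb a) = conj (emb a)) := by
  constructor <;> intro h <;>
  simp only [emb_apply, map_add, map_mul, map_intCast, h]

theorem q5_kap (ℓ : ℕ) (σ : ℂ ≃+* ℂ) (a : Eis) :
    (σ w = w → σ (kap ℓ a) = kap ℓ a) ∧ (σ w = conj w → σ (kap ℓ a) = conj (kap ℓ a)) := by
  unfold kap
  split_ifs with h
  · exact q5_emb σ _
  · exact ⟨fun _ => map_zero σ, fun _ => by rw [map_zero, map_zero]⟩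

theorem q5_kapn (n : ℕ) (σ : ℂ ≃+* ℂ) (a : Eis) :
    (σ w = w → σ (kapn n a) = kapn n a) ∧ (σ w = conj w → σ (kapn n a) = conj (kapn n a)) := by
  rw [z6_prod]
  constructor <;> intro h
  · rw [map_prod]
    refine Finset.prod_congr rfl fun p _ => ?_
    rw [map_pow, (q5_kap p σ a).1 h]
  · rw [map_prod, map_prod]
    refine Finset.prod_congr rfl fun p _ => ?_
    rw [map_pow, map_pow, (q5_kap p σ a).2 h]

theorem q5_ch4 (σ : ℂ ≃+* ℂ) (a : Eis) : σ (ch4 a) = ch4 a := by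
  unfold ch4
  exact map_intCast σ _

theorem phr_gal {r : ℕ} (hr : Adm r) (σ : ℂ ≃+* ℂ) (a : Eis) :
    (σ w = w → σ (phr r a) = phr r a) ∧ (σ w = conj w → σ (phr r a) = phr r (star a)) := by
  constructor <;> intro h
  · rw [phr, map_mul, q5_ch4, (q5_kapn _ σ a).1 h]
  · rw [phr, phr, map_mul, q5_ch4, (q5_kapn _ σ a).2 h, z8_ch4_star, kapn_star _ hr.not_three]

theorem phc_gal {r : ℕ} (hr : Adm r) {d : ℕ} (χ : DirichletCharacter ℂ d) (σ : ℂ ≃+* ℂ)
    (a : Eis) :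
    (σ w = w → σ (phc r χ a) = phc r (χ.ringHomComp (σ : ℂ →+* ℂ)) a) ∧
    (σ w = conj w → σ (phc r χ a) = phc r (χ.ringHomComp (σ : ℂ →+* ℂ)) (star a)) := by
  constructor <;> intro h
  · rw [phc, phc, map_mul, (phr_gal hr σ a).1 h, MulChar.ringHomComp_apply]
    rfl
  · rw [phc, phc, map_mul, (phr_gal hr σ a).2 h, MulChar.ringHomComp_apply, i4_norm_star]
    rfl

/-- The characters are odd powers of themselves up to `ch4`. -/
theorem phr_pow3 {r : ℕ} (hr : Adm r) (u : Eis) (hu : IsCoprime u ((2 * r : ℕ) : Eis)) (n : ℕ) :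
    phr r u ^ 3 ^ (n + 1) = ch4 u ∧ ch4 u ^ 2 = 1 := by
  have hodd : Odd u.norm := by
    have h1 := (coprime_iff u (2 * r)).1 hu
    rw [← Int.not_even_iff_odd]
    intro h2
    have h3 : (2 : ℤ) ∣ u.norm := even_iff_two_dvd.1 h2
    have h4 : (2 : ℤ) ∣ ((2 * r : ℕ) : ℤ) := ⟨r, by push_cast; ring⟩
    have h5 := h1.isUnit_of_dvd' h3 h4
    exact absurd (Int.isUnit_iff.1 h5) (by norm_num)
  have hsq : ch4 u * ch4 u = 1 := n1_ch4_sq u hodd
  have hsq2 : ch4 u ^ 2 = 1 := by rw [sq, hsq]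
  refine ⟨?_, hsq2⟩
  rw [phr, mul_pow]
  have h1 : kapn (2 * r) u ^ 3 ^ (n + 1) = 1 := by
    rw [pow_succ', pow_mul, kapn_cube _ hr.not_three _ hu, one_pow]
  rw [h1, mul_one]
  obtain ⟨j, hj⟩ : Odd (3 ^ (n + 1)) := Odd.pow (by decide)
  rw [hj, pow_succ, pow_mul, hsq2, one_pow, one_mul]

end SB3
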