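import Pool.Agent.MP_9ab903_nt.A3.ADefs
import Pool.Agent.MP_9ab903_nt.A3.A3
import Pool.Agent.MP_9ab903_nt.A3.A4
import Pool.Agent.MP_9ab903_nt.A3.A5
import Pool.Agent.MP_9ab903_nt.AN.B3
import Pool.Agent.MP_9ab903_nt.AN.Z
import Pool.Agent.MP_ae0bd0_nt.B3.P9

set_option autoImplicit false

open scoped ComplexConjugate
open NumberField CM27 BS3

namespace SB3

/-! ## [SB3-A6] the Galois action on `PF` (file A6.lean; uses the stubs A3, A4, A5) -/

/-- The product of the values of the characters of a field of odd degree. -/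
theorem prod_chars_one (m : ℕ) [NeZero m] (M : Type) [Field M] [NumberField M]
    [IsCyclotomicExtension {m} ℚ M] (F : IntermediateField ℚ M) (n : ℕ)
    (h : Module.finrank ℚ F = 3 ^ n) (a : ℤ) (ha : IsCoprime a (m : ℤ)) :
    ∏ χ ∈ chars m F, χ.primitiveCharacter (a : ZMod χ.conductor) = 1 := by
  have h0 : ∀ χ : DirichletCharacter ℂ m, χ.primitiveCharacter (a : ZMod χ.conductor) =
      χ ((ZMod.unitOfIsCoprime a ha : (ZMod m)ˣ) : ZMod m) := by
    intro χ
    rw [ZMod.coe_unitOfIsCoprime]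
    conv_rhs => rw [← DirichletCharacter.changeLevel_primitiveCharacter (χ := χ)]
    rw [DirichletCharacter.changeLevel_eq_cast_of_dvd' _ _ ha]
  rw [Finset.prod_congr rfl fun χ _ => h0 χ]
  set p := ∏ χ ∈ chars m F, χ ((ZMod.unitOfIsCoprime a ha : (ZMod m)ˣ) : ZMod m) with hp
  have h1 : p ^ 2 = 1 := by
    rw [hp, ← Finset.prod_pow]
    exact prod_sq_one m M F _
  have h2 : p ^ 3 ^ n = 1 := by
    rw [hp, ← Finset.prod_pow]
    refine Finset.prod_eq_one fun χ hχ => ?_
    have h3 := chars_pow_gen m M F _ h χ hχ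
    rw [← MulChar.pow_apply_coe, h3, MulChar.one_apply_coe]
  have h4 : Odd (3 ^ n) := Odd.pow (by decide)
  obtain ⟨k, hk⟩ := h4
  rw [hk, pow_succ, pow_mul, h1, one_pow, one_mul] at h2
  exact h2

theorem q6_aux (r m : ℕ) [NeZero m] {d d' : ℕ} (hd : d ∣ m) (hd' : d' ∣ m)
    (ψ : DirichletCharacter ℂ d) (ψ' : DirichletCharacter ℂ d') (h : d' = d)
    (e : DirichletCharacter.changeLevel hd' ψ' = DirichletCharacter.changeLevel hd ψ) :
    SK (4 * (oddrad r * d')) (phc r ψ') = SK (4 * (oddrad r * d)) (phc r ψ) := by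
  subst h
  have h2 := DirichletCharacter.changeLevel_injective hd' e
  subst h2
  rfl

theorem q6_val (m : ℕ) [NeZero m] (σ : ℂ ≃+* ℂ) (χ : DirichletCharacter ℂ m) (a : ℤ)
    (ha : IsCoprime a (m : ℤ)) :
    (χ.primitiveCharacter.ringHomComp (σ : ℂ →+* ℂ)) (a : ZMod χ.conductor) =
      (DirichletCharacter.primitiveCharacter (χ.ringHomComp (σ : ℂ →+* ℂ)))
        (a : ZMod (DirichletCharacter.conductor (χ.ringHomComp (σ : ℂ →+* ℂ)))) := by
  have h1 := DirichletCharacter.changeLevel_eq_cast_of_dvd'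
    (χ.primitiveCharacter.ringHomComp (σ : ℂ →+* ℂ)) χ.conductor_dvd_level ha
  have h2 := DirichletCharacter.changeLevel_eq_cast_of_dvd'
    (DirichletCharacter.primitiveCharacter (χ.ringHomComp (σ : ℂ →+* ℂ)))
    (DirichletCharacter.conductor_dvd_level _) ha
  rw [← h1, ← h2, ← b3_comp_eq, DirichletCharacter.changeLevel_primitiveCharacter]

theorem q6_one {r : ℕ} (hr : Adm r) (m : ℕ) [NeZero m] (σ : ℂ ≃+* ℂ) (u : Eis)
    (hu : IsCoprime u ((4 * (oddrad r * m) : ℕ) : Eis)) (hx : ActX (4 * (oddrad r * m)) σ u)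
    (χ : DirichletCharacter ℂ m) :
    σ (SK (4 * (oddrad r * χ.conductor)) (phc r χ.primitiveCharacter)) *
      (phr r u * (DirichletCharacter.primitiveCharacter (χ.ringHomComp (σ : ℂ →+* ℂ)))
        ((u.norm : ℤ) : ZMod (DirichletCharacter.conductor (χ.ringHomComp (σ : ℂ →+* ℂ))))) =
      SK (4 * (oddrad r * DirichletCharacter.conductor (χ.ringHomComp (σ : ℂ →+* ℂ))))
        (phc r (DirichletCharacter.primitiveCharacter (χ.ringHomComp (σ : ℂ →+* ℂ)))) := by
  have hR : oddrad r ≠ 0 := (good_oddrad hr).1.ne_zero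
  have hN : 4 * (oddrad r * m) ≠ 0 := by
    have := NeZero.ne m
    positivity
  have hdm : 4 * (oddrad r * χ.conductor) ∣ 4 * (oddrad r * m) :=
    Nat.mul_dvd_mul_left 4 (Nat.mul_dvd_mul_left _ χ.conductor_dvd_level)
  have hM : 4 * (oddrad r * χ.conductor) ≠ 0 := fun h => hN (by
    rw [h] at hdm
    exact Nat.eq_zero_of_zero_dvd hdm)
  have hcop : IsCoprime u ((4 * (oddrad r * χ.conductor) : ℕ) : Eis) :=
    hu.of_isCoprime_of_dvd_right (by
      obtain ⟨c, hc⟩ := hdm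
      exact ⟨(c : Eis), by rw [hc]; push_cast; ring⟩)
  have hmc : IsCoprime (u.norm : ℤ) (m : ℤ) := by
    have h1 := (coprime_iff u _).1 hu
    exact h1.of_isCoprime_of_dvd_right (by
      push_cast
      exact ⟨4 * (oddrad r : ℤ), by ring⟩)
  have h1 := SK_gal (4 * (oddrad r * χ.conductor)) hM σ u hcop (phc r χ.primitiveCharacter)
    (phc r (χ.primitiveCharacter.ringHomComp (σ : ℂ →+* ℂ)))
    (isCh_phc hr _) (ActX_dvd _ _ hN hdm σ u hx)
    (fun h c => (phc_gal hr χ.primitiveCharacter σ c).1 h)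
    (fun h c => (phc_gal hr χ.primitiveCharacter σ c).2 h)
  have h2 := q6_aux r m χ.conductor_dvd_level
    (DirichletCharacter.conductor_dvd_level (χ.ringHomComp (σ : ℂ →+* ℂ)))
    (χ.primitiveCharacter.ringHomComp (σ : ℂ →+* ℂ))
    (DirichletCharacter.primitiveCharacter (χ.ringHomComp (σ : ℂ →+* ℂ))) (b3_conductor χ σ)
    (by rw [← b3_comp_eq, DirichletCharacter.changeLevel_primitiveCharacter])
  rw [h2, ← h1, phc, q6_val m σ χ _ hmc]

theorem PF_gal {r : ℕ} (hr : Adm r) (m : ℕ) [NeZero m] (hm : Good m)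
    (hrm : ∀ p, p.Prime → p ∣ r → ¬ p ∣ m) (M : Type) [Field M] [NumberField M]
    [IsCyclotomicExtension {m} ℚ M] (F : IntermediateField ℚ M) (n : ℕ)
    (h : Module.finrank ℚ F = 3 ^ n) (σ : ℂ ≃+* ℂ) (u : Eis)
    (hu : IsCoprime u ((4 * (oddrad r * m) : ℕ) : Eis)) (hx : ActX (4 * (oddrad r * m)) σ u) :
    σ (PF r m F) * phr r u ^ 3 ^ n = PF r m F := by
  have hmc : IsCoprime (u.norm : ℤ) (m : ℤ) := by
    have h1 := (coprime_iff u _).1 hu
    exact h1.of_isCoprime_of_dvd_right (by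
      push_cast
      exact ⟨4 * (oddrad r : ℤ), by ring⟩)
  have h1 := Finset.prod_congr rfl fun χ (_ : χ ∈ chars m F) => q6_one hr m σ u hu hx χ
  rw [Finset.prod_mul_distrib, Finset.prod_mul_distrib, Finset.prod_const, card_chars, h] at h1
  have h2 := b3_prod_comp m M F σ
    (fun χ => χ.primitiveCharacter ((u.norm : ℤ) : ZMod χ.conductor))
  have h3 := b3_prod_comp m M F σ
    (fun χ => SK (4 * (oddrad r * χ.conductor)) (phc r χ.primitiveCharacter))
  rw [prod_chars_one m M F n h _ hmc] at h2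
  rw [h2, h3, mul_one] at h1
  rw [PF, map_prod]
  exact h1

end SB3
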