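import Pool.Agent.MP_9ab903_nt.A3.ADefs
import Pool.Agent.MP_9ab903_nt.A3.A3
import Pool.Agent.MP_9ab903_nt.AN.A9
import Pool.Agent.MP_9ab903_nt.AN.B5

set_option autoImplicit false

open scoped ComplexConjugate
open NumberField CM27 BS3

namespace SB3

/-! ## [SB3-A7] algebraicity (file A7.lean; uses the stub `XX_eq` of A3) -/

open Polynomial in
theorem q7_quartic (b x : ℂ) (hb : IsAlgebraic ℚ b)
    (h : b * (4 * x + 1) ^ 3 = x * (x - 2) ^ 3) : IsAlgebraic ℚ x := by
  have hbm : b ∈ algebraicClosure ℚ ℂ := mem_algebraicClosure_iff.2 hb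
  have h1 : IsAlgebraic (algebraicClosure ℚ ℂ) x := by
    refine ⟨X * (X - C 2) ^ 3 - C ⟨b, hbm⟩ * (C 4 * X + C 1) ^ 3, ?_, ?_⟩
    · intro h0
      have h2 := congrArg (eval (-1 / 4 : algebraicClosure ℚ ℂ)) h0
      simp only [eval_sub, eval_mul, eval_pow, eval_add, eval_X, eval_C, eval_zero] at h2
      norm_num at h2
    · have c2 : algebraMap (algebraicClosure ℚ ℂ) ℂ 2 = 2 := map_ofNat _ 2
      have c4 : algebraMap (algebraicClosure ℚ ℂ) ℂ 4 = 4 := map_ofNat _ 4
      have cb : algebraMap (algebraicClosure ℚ ℂ) ℂ ⟨b, hbm⟩ = b := rfl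
      simp only [map_sub, map_mul, map_pow, map_add, aeval_X, aeval_C, c2, c4, cb, map_one]
      linear_combination -h
  have h2 : Algebra.IsAlgebraic ℚ (algebraicClosure ℚ ℂ) := algebraicClosure.isAlgebraic ℚ ℂ
  exact h1.restrictScalars ℚ

theorem q7_odd (N : ℕ) (hN : Odd N) (z : ℂ) (hz : (N : ℂ) * z ∈ Set.range emb) :
    IsAlgebraic ℚ (XX z) := by
  rw [XX_eq]
  exact (xw_alg N hN z hz).pow 3

theorem q7_aux (N : ℕ) (hN : Odd N) (k : ℕ) : ∀ z : ℂ,
    ((2 ^ k * N : ℕ) : ℂ) * z ∈ Set.range emb → IsAlgebraic ℚ (XX z) := by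
  induction k with
  | zero =>
    intro z hz
    rw [pow_zero, one_mul] at hz
    exact q7_odd N hN z hz
  | succ k ih =>
    intro z hz
    have h2 : IsAlgebraic ℚ (XX (2 * z)) := by
      apply ih
      obtain ⟨c, hc⟩ := hz
      refine ⟨c, ?_⟩
      rw [hc]
      push_cast
      ring
    by_cases h1 : z ∈ Set.range emb
    · obtain ⟨a, rfl⟩ := h1
      exact q7_odd 1 (by decide) _ ⟨a, by push_cast; ring⟩
    · by_cases h3 : 2 * z ∈ Set.range emb
      · have h4 := XX_half z h1 h3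
        have h5 : XX z = ((-1 / 4 : ℚ) : ℂ) := by
          push_cast
          linear_combination h4 / 4
        rw [h5]
        exact isAlgebraic_algebraMap (R := ℚ) (A := ℂ) (-1 / 4 : ℚ)
      · exact q7_quartic _ _ h2 (XX_dup z h3)

theorem XX_alg (N : ℕ) (hN : N ≠ 0) (z : ℂ) (hz : (N : ℂ) * z ∈ Set.range emb) :
    IsAlgebraic ℚ (XX z) := by
  obtain ⟨k, n, hn, rfl⟩ := Nat.exists_eq_two_pow_mul_odd hN
  exact q7_aux n hn k z hz

theorem q7_emb (a : Eis) : IsAlgebraic ℚ (emb a) := by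
  have hw : IsAlgebraic ℚ w := by
    refine IsAlgebraic.of_pow (n := 6) (by norm_num) ?_
    have h : w ^ 6 = 1 := by
      have h := x0_six (u := ⟨0, 1⟩) ((mem_U6 _).1 (by simp [U6]))
      simpa [emb_apply] using h
    rw [h]
    exact isAlgebraic_one
  rw [emb_apply]
  exact (isAlgebraic_intCast _).add ((isAlgebraic_intCast _).mul hw)

theorem q7_kap (l : ℕ) (a : Eis) : IsAlgebraic ℚ (kap l a) := by
  unfold kap
  split_ifs with h
  · exact q7_emb _
  · exact isAlgebraic_zero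

theorem q7_phr (r : ℕ) (a : Eis) : phr r a ∈ algebraicClosure ℚ ℂ := by
  unfold phr ch4 kapn
  refine mul_mem (intCast_mem _ _) ?_
  rw [Finsupp.prod]
  exact prod_mem fun p _ => pow_mem (mem_algebraicClosure_iff.2 (q7_kap p a)) _

theorem SK_alg {r : ℕ} (hr : Adm r) {d : ℕ} [NeZero d] (χ : DirichletCharacter ℂ d) (M : ℕ)
    (hM : M ≠ 0) : IsAlgebraic ℚ (SK M (phc r χ)) := by
  rw [← mem_algebraicClosure_iff]
  unfold SK rsum phc
  refine sum_mem fun i _ => sum_mem fun j _ => mul_mem (mul_mem (q7_phr r _) ?_) (inv_mem ?_)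
  · exact mem_algebraicClosure_iff.2 (b5_char_pow _ _)
  · refine add_mem (one_mem _) (mem_algebraicClosure_iff.2 (XX_alg M hM _ ⟨⟨i, j⟩, ?_⟩))
    · have : (M : ℂ) ≠ 0 := by exact_mod_cast hM
      field_simp

theorem PF_alg {r : ℕ} (hr : Adm r) (m : ℕ) [NeZero m] (M : Type) [Field M] [NumberField M]
    [IsCyclotomicExtension {m} ℚ M] (F : IntermediateField ℚ M) : IsAlgebraic ℚ (PF r m F) := by
  rw [← mem_algebraicClosure_iff]
  unfold PF
  refine prod_mem fun χ _ => ?_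
  rw [mem_algebraicClosure_iff]
  have hm : m ≠ 0 := NeZero.ne m
  have hf : χ.conductor ≠ 0 := fun h => hm (Nat.eq_zero_of_zero_dvd (h ▸ χ.conductor_dvd_level))
  have : NeZero χ.conductor := ⟨hf⟩
  refine SK_alg hr _ _ ?_
  have ho : oddrad r ≠ 0 := by
    rw [oddrad]
    exact Finset.prod_ne_zero_iff.2 fun p hp =>
      (Nat.prime_of_mem_primeFactors (Finset.mem_of_mem_erase hp)).ne_zero
  exact mul_ne_zero (by norm_num) (mul_ne_zero ho hf)

end SB3
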