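import Pool.Agent.MP_9ab903_nt.A3.ADefs
import Pool.Agent.MP_9ab903_nt.A3.A4
import Pool.Agent.MP_ae0bd0_nt.B3.N1

set_option autoImplicit false

open scoped ComplexConjugate
open NumberField CM27 BS3

namespace SB3

/-! ## [SB3-A8] the base sum and `√3` (file A8.lean; uses the stub `SK_gal` of A4) -/

theorem q8_class (u v k : Eis) (hu : IsUnit u) :
    (1 + XX (emb (u * v + 4 * k) / 4))⁻¹ = (1 + XX (emb v / 4))⁻¹ := by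
  have e : emb (u * v + 4 * k) / 4 = emb u * (emb v / 4) + emb k := by
    rw [map_add, map_mul, map_mul, map_ofNat]
    ring
  rw [e, XX_add, XX_unit _ u hu]

theorem q8_ch4_one (x : Eis) (hn : x.norm % 4 = 1) : ch4 x = 1 := by
  unfold ch4
  have : ((x.norm : ℤ) : ZMod 4) = 1 := by
    have h2 : (4 : ℤ) ∣ x.norm - 1 := by omega
    have h3 := (ZMod.intCast_zmod_eq_zero_iff_dvd (x.norm - 1) 4).2 (by exact_mod_cast h2)
    push_cast at h3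
    exact sub_eq_zero.1 h3
  rw [this]
  simp

theorem q8_ch4_neg (x : Eis) (hn : x.norm % 4 = 3) : ch4 x = -1 := by
  unfold ch4
  have : ((x.norm : ℤ) : ZMod 4) = 3 := by
    have h2 : (4 : ℤ) ∣ x.norm - 3 := by omega
    have h3 := (ZMod.intCast_zmod_eq_zero_iff_dvd (x.norm - 3) 4).2 (by exact_mod_cast h2)
    push_cast at h3
    exact sub_eq_zero.1 h3
  rw [this]
  have h5 : ZMod.χ₄ (3 : ZMod 4) = -1 := by decide
  rw [h5]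
  simp

theorem q8_term1 (x u k : Eis) (hu : u ∈ U6) (hx : x = u * 1 + 4 * k)
    (hn : x.norm % 4 = 1) :
    n1_base 4 x * (1 + XX (emb x / (4 : ℕ)))⁻¹ = (1 + XX (1 / 4))⁻¹ := by
  rw [n1_base, if_pos ((t2_cop x).2 (by omega)), q8_ch4_one x hn, one_mul, hx]
  have h2 := q8_class u 1 k ((mem_U6 u).1 hu)
  rw [map_one] at h2
  push_cast
  exact h2

theorem q8_term2 (x u k : Eis) (hu : u ∈ U6) (hx : x = u * ⟨2, 1⟩ + 4 * k)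
    (hn : x.norm % 4 = 3) :
    n1_base 4 x * (1 + XX (emb x / (4 : ℕ)))⁻¹ = -(1 + XX ((2 + w) / 4))⁻¹ := by
  rw [n1_base, if_pos ((t2_cop x).2 (by omega)), q8_ch4_neg x hn, neg_one_mul, hx]
  have h2 := q8_class u ⟨2, 1⟩ k ((mem_U6 u).1 hu)
  have h3 : emb (⟨2, 1⟩ : Eis) = 2 + w := by
    rw [emb_apply]
    push_cast
    ring
  rw [h3] at h2
  have h6 : ((4 : ℕ) : ℂ) = 4 := by norm_num
  rw [h6, h2]

theorem q8_term0 (x : Eis) (hn : x.norm % 2 = 0) :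
    n1_base 4 x * (1 + XX (emb x / (4 : ℕ)))⁻¹ = 0 := by
  rw [n1_base, if_neg, zero_mul]
  rw [t2_cop]
  omega

theorem q8_four : SK 4 (n1_base 4) =
    6 * ((1 + XX (1 / 4))⁻¹ - (1 + XX ((2 + w) / 4))⁻¹) := by
  have h4 : (4 : Eis) = ⟨4, 0⟩ := rfl
  rw [SK, rsum]
  simp only [Finset.sum_range_succ, Finset.sum_range_zero, zero_add]
  rw [q8_term0 ⟨(0 : ℕ), (0 : ℕ)⟩ (by rw [norm_eq]; norm_num),
    q8_term1 ⟨(0 : ℕ), (1 : ℕ)⟩ ⟨0, 1⟩ 0 (by simp [U6]) (by ext <;> simp)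
      (by rw [norm_eq]; norm_num),
    q8_term0 ⟨(0 : ℕ), (2 : ℕ)⟩ (by rw [norm_eq]; norm_num),
    q8_term1 ⟨(0 : ℕ), (3 : ℕ)⟩ ⟨0, -1⟩ ⟨0, 1⟩ (by simp [U6]) (by rw [h4]; ext <;> simp)
      (by rw [norm_eq]; norm_num),
    q8_term1 ⟨(1 : ℕ), (0 : ℕ)⟩ ⟨1, 0⟩ 0 (by simp [U6]) (by ext <;> simp)
      (by rw [norm_eq]; norm_num),
    q8_term1 ⟨(1 : ℕ), (1 : ℕ)⟩ ⟨1, 1⟩ 0 (by simp [U6]) (by ext <;> simp)
      (by rw [norm_eq]; norm_num),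
    q8_term2 ⟨(1 : ℕ), (2 : ℕ)⟩ ⟨1, 1⟩ 0 (by simp [U6]) (by ext <;> simp)
      (by rw [norm_eq]; norm_num),
    q8_term2 ⟨(1 : ℕ), (3 : ℕ)⟩ ⟨0, -1⟩ ⟨0, 1⟩ (by simp [U6]) (by rw [h4]; ext <;> simp)
      (by rw [norm_eq]; norm_num),
    q8_term0 ⟨(2 : ℕ), (0 : ℕ)⟩ (by rw [norm_eq]; norm_num),
    q8_term2 ⟨(2 : ℕ), (1 : ℕ)⟩ ⟨1, 0⟩ 0 (by simp [U6]) (by ext <;> simp)
      (by rw [norm_eq]; norm_num),
    q8_term0 ⟨(2 : ℕ), (2 : ℕ)⟩ (by rw [norm_eq]; norm_num),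
    q8_term2 ⟨(2 : ℕ), (3 : ℕ)⟩ ⟨-1, 0⟩ ⟨1, 1⟩ (by simp [U6]) (by rw [h4]; ext <;> simp)
      (by rw [norm_eq]; norm_num),
    q8_term1 ⟨(3 : ℕ), (0 : ℕ)⟩ ⟨-1, 0⟩ ⟨1, 0⟩ (by simp [U6]) (by rw [h4]; ext <;> simp)
      (by rw [norm_eq]; norm_num),
    q8_term2 ⟨(3 : ℕ), (1 : ℕ)⟩ ⟨0, 1⟩ ⟨1, 0⟩ (by simp [U6]) (by rw [h4]; ext <;> simp)
      (by rw [norm_eq]; norm_num),
    q8_term2 ⟨(3 : ℕ), (2 : ℕ)⟩ ⟨-1, -1⟩ ⟨1, 1⟩ (by simp [U6]) (by rw [h4]; ext <;> simp)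
      (by rw [norm_eq]; norm_num),
    q8_term1 ⟨(3 : ℕ), (3 : ℕ)⟩ ⟨-1, -1⟩ ⟨1, 1⟩ (by simp [U6]) (by rw [h4]; ext <;> simp)
      (by rw [norm_eq]; norm_num)]
  ring

theorem base_sq : SK 4 (n1_base 4) ^ 2 = 48 := by
  rw [q8_four, mul_pow, k_four]
  norm_num

theorem q8_ch4_fix (σ : ℂ ≃+* ℂ) (c : Eis) : σ (ch4 c) = ch4 c := by
  unfold ch4
  exact map_intCast σ _

theorem q8_base_fix (σ : ℂ ≃+* ℂ) (c : Eis) : σ (n1_base 4 c) = n1_base 4 c := by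
  unfold n1_base
  split_ifs
  · exact q8_ch4_fix σ c
  · exact map_zero σ

theorem q8_base_star (c : Eis) : n1_base 4 (star c) = n1_base 4 c := by
  unfold n1_base
  have h : IsCoprime (star c) ((4 : ℕ) : Eis) ↔ IsCoprime c ((4 : ℕ) : Eis) := by
    rw [coprime_iff, coprime_iff, t2_norm_star]
  have h2 : ch4 (star c) = ch4 c := by
    unfold ch4
    rw [t2_norm_star]
  rw [h2]
  by_cases hc : IsCoprime c ((4 : ℕ) : Eis)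
  · rw [if_pos hc, if_pos (h.2 hc)]
  · rw [if_neg hc, if_neg (fun h' => hc (h.1 h'))]

/-- The action on `√3`. -/
theorem sqrt_three_gal (N : ℕ) (hN : N ≠ 0) (h4 : 4 ∣ N) (σ : ℂ ≃+* ℂ) (u : Eis)
    (hu : IsCoprime u (N : Eis)) (hx : ActX 4 σ u) :
    σ ((√3 : ℝ) : ℂ) * ch4 u = ((√3 : ℝ) : ℂ) := by
  have hu4 : IsCoprime u ((4 : ℕ) : Eis) := by
    obtain ⟨k, rfl⟩ := h4
    rw [Nat.cast_mul] at hu
    exact hu.of_mul_right_left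
  have h1 := SK_gal 4 (by norm_num) σ u hu4 (n1_base 4) (n1_base 4) (n1_isCh_base 4 dvd_rfl) hx
    (fun _ c => q8_base_fix σ c) (fun _ c => by rw [q8_base_fix, q8_base_star])
  have h2 : n1_base 4 u = ch4 u := by rw [n1_base, if_pos hu4]
  rw [h2] at h1
  have h3 : SK 4 (n1_base 4) ^ 2 = (4 * ((√3 : ℝ) : ℂ)) ^ 2 := by
    rw [base_sq, mul_pow, ← Complex.ofReal_pow, Real.sq_sqrt (by norm_num)]
    norm_num
  have h5 : ((4 : ℂ)) ≠ 0 := by norm_num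
  have h6 : σ (4 : ℂ) = 4 := map_ofNat σ 4
  rcases sq_eq_sq_iff_eq_or_eq_neg.1 h3 with h | h
  · rw [h, map_mul, h6] at h1
    apply mul_left_cancel₀ h5
    linear_combination h1
  · rw [h, map_neg, map_mul, h6] at h1
    apply mul_left_cancel₀ h5
    linear_combination -h1

end SB3
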