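import Pool.Agent.MP_ae0bd0_nt.B3.Defs
import Pool.Agent.MP_ae0bd0_nt.B3.V1

set_option autoImplicit false

open CM27 BS3

namespace SB3

/-! ## [SB3-A9] rational numbers of valuation `1` (file A9.lean) -/

theorem q9_val_three (A : ValuationSubring ℂ) (hA : A.valuation 3 < 1) (n : ℤ)
    (hn : (3 : ℤ) ∣ n) : A.valuation (n : ℂ) < 1 := by
  obtain ⟨k, rfl⟩ := hn
  push_cast
  rw [map_mul]
  calc A.valuation 3 * A.valuation (k : ℂ) ≤ A.valuation 3 * 1 :=
        mul_le_mul_right (i1_val_int A k) _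
    _ < 1 := by rw [mul_one]; exact hA

theorem rat_val3 (q : ℚ) (A : ValuationSubring ℂ) (hA : A.valuation 3 < 1)
    (h : A.valuation (q : ℂ) = 1) : padicValRat 3 q = 0 := by
  have hd : (q.den : ℂ) ≠ 0 := by exact_mod_cast q.den_nz
  have hq : (q : ℂ) * ((q.den : ℤ) : ℂ) = ((q.num : ℤ) : ℂ) := by
    have : (q : ℚ) * q.den = q.num := Rat.mul_den_eq_num q
    exact_mod_cast congrArg (Rat.cast : ℚ → ℂ) this
  have hv := congrArg A.valuation hq
  rw [map_mul, h, one_mul] at hv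
  have hco : Nat.Coprime q.num.natAbs q.den := q.reduced
  have h1 : ¬ (3 : ℤ) ∣ q.num := by
    intro h2
    have h3 := q9_val_three A hA q.num h2
    have h4 : ¬ (3 : ℤ) ∣ (q.den : ℤ) := by
      intro h5
      have h6 : 3 ∣ q.num.natAbs := Int.natAbs_dvd_natAbs.2 h2
      have h7 : 3 ∣ q.den := by exact_mod_cast h5
      have := Nat.dvd_gcd h6 h7
      rw [hco] at this
      omega
    have h5 : A.valuation ((q.den : ℤ) : ℂ) = 1 := val_int3 A hA _ h4
    rw [← hv, h5] at h3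
    exact lt_irrefl _ h3
  have h2 : ¬ (3 : ℤ) ∣ (q.den : ℤ) := by
    intro h5
    have h3 := q9_val_three A hA (q.den : ℤ) h5
    have h6 : A.valuation ((q.num : ℤ) : ℂ) = 1 := val_int3 A hA _ h1
    rw [hv, h6] at h3
    exact lt_irrefl _ h3
  rw [padicValRat]
  rw [padicValInt.eq_zero_of_not_dvd (by exact_mod_cast h1),
    padicValNat.eq_zero_of_not_dvd (by exact_mod_cast h2)]
  simp

end SB3
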