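import Pool.Agent.MP_ae0bd0_nt.B3.Z9
import Pool.Agent.MP_9ab903_nt.AN.Defs

set_option autoImplicit false

open scoped ComplexConjugate
open NumberField CM27 BS3

namespace SB3

/-! ## [SB3-A] the algebraic parts of the `L`-values: definitions (file ADefs.lean) -/

/-- `∑ ψ(v) / (1 + X(v / M))`, the algebraic part of the `L`-value. -/
noncomputable def SK (M : ℕ) (ψ : Eis → ℂ) : ℂ :=
  rsum M (fun v => ψ v * (1 + XX (emb v / M))⁻¹)

/-- The action of `σ` on the values `X(c / N)`, with multiplier `u`. -/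
def ActX (N : ℕ) (σ : ℂ ≃+* ℂ) (u : Eis) : Prop :=
  (σ w = w ∧ ∀ c : Eis, σ (XX (emb c / N)) = XX (emb (c * u) / N)) ∨
  (σ w = conj w ∧ ∀ c : Eis, σ (XX (emb c / N)) = XX (emb (star c * u) / N))

/-- The product of the algebraic parts over the characters of `F`. -/
noncomputable def PF (r m : ℕ) [NeZero m] {M : Type} [Field M] [NumberField M]
    [IsCyclotomicExtension {m} ℚ M] (F : IntermediateField ℚ M) : ℂ :=
  ∏ χ ∈ chars m F, SK (4 * (oddrad r * χ.conductor)) (phc r χ.primitiveCharacter)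

end SB3
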