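import Pool.Agent.MP_9ab903_nt.A3.A1
import Pool.Agent.MP_9ab903_nt.A3.A2
import Pool.Agent.MP_9ab903_nt.A3.A6
import Pool.Agent.MP_9ab903_nt.A3.A7
import Pool.Agent.MP_9ab903_nt.A3.A8
import Pool.Agent.MP_9ab903_nt.A3.A9
import Pool.Agent.MP_9ab903_nt.T3.T8
import Pool.Agent.MP_9ab903_nt.T3.T9
import Pool.Agent.MP_9ab903_nt.Disc

set_option autoImplicit false

open scoped ComplexConjugate Classical
open NumberField IsDedekindDomain CM27 BS3

namespace SB3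

/-! ## [SB3-VAL] the value at `s = 1` (file VAL.lean) -/

theorem good_level {r : ℕ} (hr : Adm r) {m : ℕ} (hm : Good m)
    (hrm : ∀ p, p.Prime → p ∣ r → ¬ p ∣ m) (χ : DirichletCharacter ℂ m) :
    Good (oddrad r * χ.conductor) := by
  refine good_mul (good_oddrad hr) (hm.of_dvd χ.conductor_dvd_level) ?_
  intro p hp h h'
  exact hrm p hp ((dvd_oddrad hr.ne_zero hp).1 h).1 (h'.trans χ.conductor_dvd_level)

theorem phc_root {r : ℕ} (hr : Adm r) {m : ℕ} (χ : DirichletCharacter ℂ m) (n : ℕ)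
    (hχ : χ ^ 3 ^ n = 1) (a : Eis)
    (ha : IsCoprime a ((4 * (oddrad r * χ.conductor) : ℕ) : Eis)) :
    (phc r χ.primitiveCharacter a * ch4 a) ^ 3 ^ (n + 1) = 1 := by
  have h1 : χ.primitiveCharacter ^ 3 ^ (n + 1) = 1 := by
    have := primitive_pow χ _ hχ
    rw [pow_succ, pow_mul, this, one_pow]
  rw [coprime_iff] at ha
  push_cast at ha
  have ha4 : IsCoprime a.norm (4 : ℤ) := ha.of_mul_right_left
  have had : IsCoprime a.norm (χ.conductor : ℤ) := ha.of_mul_right_right.of_mul_right_right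
  have hu : IsUnit ((a.norm : ℤ) : ZMod χ.conductor) :=
    (ZMod.coe_int_isUnit_iff_isCoprime a.norm χ.conductor).2 had.symm
  have hodd : Odd a.norm := by
    rw [← Int.not_even_iff_odd, even_iff_two_dvd]
    intro h
    have := ha4.isUnit_of_dvd' h (by norm_num)
    norm_num [Int.isUnit_iff] at this
  have ha2r : IsCoprime a ((2 * r : ℕ) : Eis) := by
    rw [coprime_iff]
    exact int_coprime_of (fun p hp h => prime_dvd_level hr χ.conductor p hp h)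
      (by push_cast; exact ha)
  have hsq : ch4 a * ch4 a = 1 := n1_ch4_sq a hodd
  have h6 : phc r χ.primitiveCharacter a * ch4 a =
      kapn (2 * r) a * χ.primitiveCharacter ((a.norm : ℤ) : ZMod χ.conductor) := by
    rw [phc, phr]
    linear_combination (kapn (2 * r) a *
      χ.primitiveCharacter ((a.norm : ℤ) : ZMod χ.conductor)) * hsq
  rw [h6, mul_pow]
  have h8 : kapn (2 * r) a ^ 3 ^ (n + 1) = 1 := by
    rw [pow_succ', pow_mul, kapn_cube (2 * r) hr.not_three a ha2r, one_pow]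
  rw [h8, one_mul]
  obtain ⟨u, hu'⟩ := hu
  rw [← hu', ← map_pow, ← Units.val_pow_eq_pow_val]
  have h7 := congrArg (fun ψ : DirichletCharacter ℂ χ.conductor => ψ (u : ZMod χ.conductor)) h1
  simp only [MulChar.pow_apply_coe, MulChar.one_apply_coe] at h7
  rw [Units.val_pow_eq_pow_val, map_pow]
  exact h7

theorem phc_three {r : ℕ} (hr : Adm r) {d : ℕ} (χ : DirichletCharacter ℂ d) :
    phc r χ 3 = χ ((9 : ℤ) : ZMod d) := by
  have h3 : (3 : Eis) = ((3 : ℤ) : Eis) := by norm_cast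
  have h1 : ((3 : Eis)).norm = 9 := by
    rw [norm_eq]
    have h4 : (3 : Eis).re = 3 := rfl
    have h4' : (3 : Eis).im = 0 := rfl
    rw [h4, h4']
    norm_num
  have h2 : ch4 (3 : Eis) = 1 := by
    rw [h3]
    exact z8_ch4_int 3 (by decide)
  have h5 : kapn (2 * r) (3 : Eis) = 1 := by
    rw [h3]
    refine kapn_int (2 * r) hr.not_three 3 ?_
    have : Nat.Coprime 3 (2 * r) := (Nat.Prime.coprime_iff_not_dvd Nat.prime_three).2 hr.not_three
    exact_mod_cast Nat.isCoprime_iff_coprime.2 this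
  rw [phc, phr, h2, h5, h1, one_mul, one_mul]

theorem char_value {r : ℕ} (hr : Adm r) {m : ℕ} (hm : Good m)
    (hrm : ∀ p, p.Prime → p ∣ r → ¬ p ∣ m) (χ : DirichletCharacter ℂ m) (n : ℕ)
    (hχ : χ ^ 3 ^ n = 1) (K : ℂ)
    (hK : ∀ z, z ∉ Set.range emb → NP z → (Fz z - Fz 0) * (1 + XX z) = K) :
    ∃ Φ : ℂ → ℂ, Differentiable ℂ Φ ∧
      (∀ s : ℂ, 3 / 2 < s.re → LSeriesSummable (fun k => twc (cr r) χ k) s ∧
        Φ s = LSeries (fun k => twc (cr r) χ k) s) ∧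
      ∃ e : ℤ, e ^ 2 = 1 ∧ Φ 1 = e * (K / 18) *
        χ.primitiveCharacter ((9 : ℤ) : ZMod χ.conductor) *
        ((4 * (oddrad r * χ.conductor) : ℕ) : ℂ)⁻¹ *
        SK (4 * (oddrad r * χ.conductor)) (phc r χ.primitiveCharacter) := by
  have hrd := good_level hr hm hrm χ
  have hch := isCh_phc hr χ.primitiveCharacter
  have h4 : (fun k => twc (cr r) χ k) = cf (phc r χ.primitiveCharacter) := by
    funext k
    rw [twc_apply, pval, cr_apply, cf_phc]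
  have hM : 4 * (oddrad r * χ.conductor) ≠ 0 := mul_ne_zero (by norm_num) hrd.ne_zero
  have hM1 : 1 < 4 * (oddrad r * χ.conductor) := by
    have := Nat.pos_of_ne_zero hrd.ne_zero
    omega
  obtain ⟨Φ, hΦ, hs, e, he, h5⟩ := L_value hM hrd.not_three_dvd hch
  have h0 := rsum_zero _ hrd _ hch (n + 1) (phc_root hr χ n hχ)
  refine ⟨Φ, hΦ, by rw [h4]; exact hs, e, he, ?_⟩
  rw [h5, sum_SK _ hM1 hrd.not_three_dvd K hK _ hch h0, phc_three hr]
  have hMC : ((4 * (oddrad r * χ.conductor) : ℕ) : ℂ) ≠ 0 := by exact_mod_cast hM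
  field_simp

theorem L_full {r : ℕ} (hr : Adm r) (m : ℕ) [NeZero m] (hm : Good m)
    (hrm : ∀ p, p.Prime → p ∣ r → ¬ p ∣ m) (M : Type) [Field M] [NumberField M]
    [IsCyclotomicExtension {m} ℚ M] (F : IntermediateField ℚ M) (n : ℕ)
    (h : Module.finrank ℚ F = 3 ^ n) (hun : ∀ p, p.Prime → p ∣ 6 * r → Unram p F) :
    ∃ Lm : ℂ → ℂ, Differentiable ℂ Lm ∧
      (∀ s : ℂ, 3 / 2 < s.re →
        LSeriesSummable (fun k => ((W (-(r : ℤ) ^ 2) F).LFunction k : ℂ)) s ∧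
        Lm s = (W (-(r : ℤ) ^ 2) F).LSeries s) ∧
      ∃ e : ℤ, e ^ 2 = 1 ∧ Lm 1 = e * (((√3 : ℝ) : ℂ) * Om / 6) ^ 3 ^ n *
        ((∏ χ ∈ chars m F, (4 * (oddrad r * χ.conductor)) : ℕ) : ℂ)⁻¹ * PF r m F := by
  obtain ⟨K, hK2, hK⟩ := XX_F_const
  have hord : ∀ χ ∈ chars m F, χ ^ 3 ^ n = 1 := fun χ hχ => chars_pow_gen m M F _ h χ hχ
  have key : ∀ χ ∈ chars m F, _ := fun χ hχ => char_value hr hm hrm χ n (hord χ hχ) K hK
  choose! Φ hΦ1 hΦ2 e he hΦ3 using key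
  have hS : SplitData F (chars m F) := fun p hp => split_all m hm.1 M F p hp
  have hbad : ∀ p : ℕ, p.Prime → (p : ℤ) ∣ 6 * (-(r : ℤ) ^ 2) →
      ∀ v : HeightOneSpectrum (𝓞 F), (p : 𝓞 F) ∈ v.asIdeal → fw (-(r : ℤ) ^ 2) F v = 1 := by
    intro p hp hd v hv
    refine bad_r r hr F p hp hd (hun p hp ?_) v hv
    have hpi : Prime (p : ℤ) := Nat.prime_iff_prime_int.1 hp
    have h1 : (p : ℤ) ∣ 6 * (r * r) := by
      have : (6 * (-(r : ℤ) ^ 2)) = -(6 * (r * r)) := by ring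
      rw [this] at hd
      exact (dvd_neg).1 hd
    have h2 : (p : ℤ) ∣ 6 * r := by
      rcases hpi.dvd_or_dvd h1 with h3 | h3
      · exact h3.mul_right _
      · rcases hpi.dvd_or_dvd h3 with h4 | h4 <;> exact h4.mul_left _
    exact_mod_cast h2
  have hLC : (fun k => ((W (-(r : ℤ) ^ 2) F).LFunction k : ℂ)) =
      fun k => (∏ χ ∈ chars m F, twc (cr r) χ) k := by
    funext k
    rw [← LW_apply, LW_eq (locDataR hr) F (chars m F) hS hbad]
  refine ⟨fun s => ∏ χ ∈ chars m F, Φ χ s, ?_, ?_, ?_⟩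
  · exact Differentiable.fun_finsetProd hΦ1
  · intro s hs
    obtain ⟨h1, h2⟩ := LSeries_prod (chars m F) (fun χ => twc (cr r) χ) s
      (fun χ hχ => (hΦ2 χ hχ s hs).1)
    rw [hLC]
    refine ⟨h1, ?_⟩
    have h3 : (W (-(r : ℤ) ^ 2) F).LSeries s =
      LSeries (fun k => ((W (-(r : ℤ) ^ 2) F).LFunction k : ℂ)) s := rfl
    rw [h3, hLC, h2]
    exact Finset.prod_congr rfl fun χ hχ => (hΦ2 χ hχ s hs).2
  · -- the value
    obtain ⟨δ, hδ, hKe⟩ : ∃ δ : ℤ, δ ^ 2 = 1 ∧ K / 18 = δ * (((√3 : ℝ) : ℂ) * Om / 6) := by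
      have h3 : (((√3 : ℝ) : ℂ)) ^ 2 = 3 := by
        rw [← Complex.ofReal_pow, Real.sq_sqrt (by norm_num)]
        norm_num
      have h1 : (K - 3 * (((√3 : ℝ) : ℂ) * Om)) * (K + 3 * (((√3 : ℝ) : ℂ) * Om)) = 0 := by
        linear_combination hK2 - 9 * (Om : ℂ) ^ 2 * h3
      rcases mul_eq_zero.1 h1 with h2 | h2
      · exact ⟨1, by norm_num, by push_cast; linear_combination h2 / 18⟩
      · exact ⟨-1, by norm_num, by push_cast; linear_combination h2 / 18⟩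
    have hp9 : ∏ χ ∈ chars m F, χ.primitiveCharacter ((9 : ℤ) : ZMod χ.conductor) = 1 := by
      refine prod_chars_one m M F n h 9 ?_
      have h3 : ¬ 3 ∣ m := hm.not_dvd Nat.prime_three (by norm_num)
      have : Nat.Coprime 9 m := by
        have := (Nat.Prime.coprime_iff_not_dvd Nat.prime_three).2 h3
        exact Nat.Coprime.pow_left 2 this
      exact_mod_cast Nat.isCoprime_iff_coprime.2 this
    refine ⟨(∏ χ ∈ chars m F, e χ) * δ ^ 3 ^ n, ?_, ?_⟩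
    · have h1 : ((∏ χ ∈ chars m F, e χ)) ^ 2 = 1 := by
        rw [← Finset.prod_pow]
        exact Finset.prod_eq_one he
      rw [mul_pow, h1, one_mul, ← pow_mul, mul_comm, pow_mul, hδ, one_pow]
    · change ∏ χ ∈ chars m F, Φ χ 1 = _
      rw [Finset.prod_congr rfl hΦ3]
      rw [Finset.prod_mul_distrib, Finset.prod_mul_distrib, Finset.prod_mul_distrib,
        Finset.prod_mul_distrib, hp9, Finset.prod_const, card_chars, h, hKe, PF,
        Finset.prod_inv_distrib, mul_pow]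
      push_cast
      ring

/-- The valuation of `PF`. -/
theorem PF_val {r : ℕ} (hr : Adm r) (m : ℕ) [NeZero m] (hm : Good m)
    (hrm : ∀ p, p.Prime → p ∣ r → ¬ p ∣ m) (M : Type) [Field M] [NumberField M]
    [IsCyclotomicExtension {m} ℚ M] (F : IntermediateField ℚ M) (n : ℕ)
    (h : Module.finrank ℚ F = 3 ^ n) (A : ValuationSubring ℂ) (hA : A.valuation 3 < 1) :
    A.valuation (PF r m F) ^ 2 = A.valuation 3 ^ 3 ^ n := by
  rw [PF, map_prod, ← Finset.prod_pow]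
  have h1 : ∀ χ ∈ chars m F, A.valuation (SK (4 * (oddrad r * χ.conductor))
      (phc r χ.primitiveCharacter)) ^ 2 = A.valuation 3 := by
    intro χ hχ
    exact SK_val A hA _ (good_level hr hm hrm χ) _ (isCh_phc hr χ.primitiveCharacter) (n + 1)
      (phc_root hr χ n (chars_pow_gen m M F _ h χ hχ))
  rw [Finset.prod_congr rfl h1, Finset.prod_const, card_chars, h]

/-- `√3 · PF` is rational. -/
theorem PF_rat {r : ℕ} (hr : Adm r) (m : ℕ) [NeZero m] (hm : Good m)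
    (hrm : ∀ p, p.Prime → p ∣ r → ¬ p ∣ m) (M : Type) [Field M] [NumberField M]
    [IsCyclotomicExtension {m} ℚ M] (F : IntermediateField ℚ M) (n : ℕ)
    (h : Module.finrank ℚ F = 3 ^ (n + 1)) : ∃ q : ℚ, (q : ℂ) = ((√3 : ℝ) : ℂ) * PF r m F := by
  have h3alg : IsAlgebraic ℚ (((√3 : ℝ) : ℂ)) := by
    refine IsAlgebraic.of_pow (n := 2) (by norm_num) ?_
    have : (((√3 : ℝ) : ℂ)) ^ 2 = 3 := by
      rw [← Complex.ofReal_pow, Real.sq_sqrt (by norm_num)]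
      norm_num
    rw [this]
    exact_mod_cast isAlgebraic_natCast (R := ℚ) (A := ℂ) 3
  refine fixed_rat _ (h3alg.mul (PF_alg hr m M F)) ?_
  intro σ
  have hN : 4 * (oddrad r * m) ≠ 0 := by
    refine mul_ne_zero (by norm_num) (mul_ne_zero (good_oddrad hr).ne_zero hm.ne_zero)
  obtain ⟨u, hu, hx⟩ := gal_XX (4 * (oddrad r * m)) hN σ
  have h1 := PF_gal hr m hm hrm M F (n + 1) h σ u hu hx
  have h2 := sqrt_three_gal (4 * (oddrad r * m)) hN ⟨_, rfl⟩ σ u hu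
    (ActX_dvd _ 4 hN ⟨_, rfl⟩ σ u hx)
  have h3 : IsCoprime u ((2 * r : ℕ) : Eis) := by
    rw [coprime_iff] at hu ⊢
    exact int_coprime_of (fun p hp h => prime_dvd_level hr m p hp h) hu
  obtain ⟨h4, h5⟩ := phr_pow3 hr u h3 n
  rw [h4] at h1
  rw [map_mul]
  calc σ (((√3 : ℝ) : ℂ)) * σ (PF r m F) =
        (σ (((√3 : ℝ) : ℂ)) * ch4 u) * (σ (PF r m F) * ch4 u) := by
        linear_combination (-(σ (((√3 : ℝ) : ℂ)) * σ (PF r m F))) * h5
    _ = _ := by rw [h1, h2]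

theorem val_nat (A : ValuationSubring ℂ) (hA : A.valuation 3 < 1) (N : ℕ) (hN : ¬ 3 ∣ N) :
    A.valuation (N : ℂ) = 1 := by
  have := val_int3 A hA N (by exact_mod_cast hN)
  exact_mod_cast this

/-- The value at `s = 1` divided by the period. -/
theorem value_rat {r : ℕ} (hr : Adm r) (m : ℕ) [NeZero m] (hm : Good m)
    (hrm : ∀ p, p.Prime → p ∣ r → ¬ p ∣ m) (M : Type) [Field M] [NumberField M]
    [IsCyclotomicExtension {m} ℚ M] (F : IntermediateField ℚ M) (n : ℕ)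
    (h : Module.finrank ℚ F = 3 ^ (n + 1)) (hun : ∀ p, p.Prime → p ∣ 6 * r → Unram p F)
    (ρ : ℝ) (hρ0 : 0 < ρ) (hρ : ρ ^ 3 * (2 * r) = Om ^ 3) (N : ℕ) (hN : ¬ 3 ∣ N) (N' : ℕ)
    (hN' : ¬ 3 ∣ N') :
    ∃ Lm : ℂ → ℂ, Differentiable ℂ Lm ∧
      (∀ s : ℂ, 3 / 2 < s.re →
        LSeriesSummable (fun k => ((W (-(r : ℤ) ^ 2) F).LFunction k : ℂ)) s ∧
        Lm s = (W (-(r : ℤ) ^ 2) F).LSeries s) ∧ Lm 1 ≠ 0 ∧
      ∃ q : ℚ, q ≠ 0 ∧ padicValRat 3 q = 0 ∧ Lm 1 * N / (ρ ^ 3 ^ (n + 1) * N') = q := by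
  obtain ⟨Lm, hL1, hL2, e, he, hL3⟩ := L_full hr m hm hrm M F (n + 1) h hun
  obtain ⟨q0, hq0⟩ := PF_rat hr m hm hrm M F n h
  obtain ⟨A, hA⟩ := exists_val3
  have hv3 : A.valuation (3 : ℂ) ≠ 0 := by
    rw [_root_.map_ne_zero]
    norm_num
  have hPv := PF_val hr m hm hrm M F (n + 1) h A hA
  have hP0 : PF r m F ≠ 0 := by
    intro h0
    rw [h0, map_zero, zero_pow two_ne_zero] at hPv
    exact pow_ne_zero _ hv3 hPv.symm
  have hr0 : r ≠ 0 := hr.ne_zero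
  have hN0 : N ≠ 0 := by rintro rfl; exact hN (dvd_zero 3)
  have hN0' : N' ≠ 0 := by rintro rfl; exact hN' (dvd_zero 3)
  set B : ℕ := ∏ χ ∈ chars m F, (4 * (oddrad r * χ.conductor)) with hB
  have hB3 : ¬ 3 ∣ B := by
    rw [hB, Prime.dvd_finsetProd_iff (Nat.prime_iff.1 Nat.prime_three)]
    rintro ⟨χ, -, hd⟩
    exact (good_level hr hm hrm χ).not_three_dvd hd
  have hB0 : B ≠ 0 := by
    intro h0
    rw [h0] at hB3
    exact hB3 (dvd_zero 3)
  have hOm : (0 : ℝ) < Om := Om_pos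
  have hs3 : (((√3 : ℝ) : ℂ)) ^ 2 = 3 := by
    rw [← Complex.ofReal_pow, Real.sq_sqrt (by norm_num)]
    norm_num
  have hs30 : (((√3 : ℝ) : ℂ)) ≠ 0 := by
    intro h0
    rw [h0] at hs3
    norm_num at hs3
  have he0 : (e : ℂ) ≠ 0 := by
    intro h0
    have : (e : ℤ) = 0 := by exact_mod_cast h0
    rw [this] at he
    norm_num at he
  have hOmC : (Om : ℂ) ≠ 0 := by exact_mod_cast hOm.ne'
  have hρC : (ρ : ℂ) ≠ 0 := by exact_mod_cast hρ0.ne'
  have hBC : (B : ℂ) ≠ 0 := by exact_mod_cast hB0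
  have hL0 : Lm 1 ≠ 0 := by
    rw [hL3]
    refine mul_ne_zero (mul_ne_zero (mul_ne_zero he0 (pow_ne_zero _ ?_)) (inv_ne_zero hBC)) hP0
    exact div_ne_zero (mul_ne_zero hs30 hOmC) (by norm_num)
  -- `3 ^ (n + 1) = 2 s + 1`
  obtain ⟨s, hs⟩ : ∃ s, 3 ^ (n + 1) = 2 * s + 1 := by
    have : Odd (3 ^ (n + 1)) := Odd.pow (by decide)
    exact this
  have hOr : (Om : ℂ) ^ 3 ^ (n + 1) = (ρ : ℂ) ^ 3 ^ (n + 1) * (2 * r) ^ 3 ^ n := by
    have h1 : (Om : ℂ) ^ 3 = (ρ : ℂ) ^ 3 * (2 * r) := by exact_mod_cast hρ.symm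
    rw [pow_succ' 3 n, pow_mul, h1, mul_pow, ← pow_mul]
  have hfin : Lm 1 * N / (ρ ^ 3 ^ (n + 1) * N') =
      ((e * 3 ^ s * q0 * N * (2 * r) ^ 3 ^ n / (6 ^ 3 ^ (n + 1) * B * N') : ℚ) : ℂ) := by
    have h6 : (6 : ℂ) ^ 3 ^ (n + 1) ≠ 0 := pow_ne_zero _ (by norm_num)
    have hNC' : (N' : ℂ) ≠ 0 := by exact_mod_cast hN0'
    have h7 : (((√3 : ℝ) : ℂ)) ^ 3 ^ (n + 1) = 3 ^ s * ((√3 : ℝ) : ℂ) := by
      rw [hs, pow_succ, pow_mul, hs3]
    rw [hL3, div_pow, mul_pow, hOr, h7]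
    push_cast
    rw [hq0]
    have hρp : (ρ : ℂ) ^ 3 ^ (n + 1) ≠ 0 := pow_ne_zero _ hρC
    field_simp
  refine ⟨Lm, hL1, hL2, hL0, _, ?_, ?_, hfin⟩
  · have hq00 : q0 ≠ 0 := by
      intro h0
      rw [h0, Rat.cast_zero] at hq0
      exact mul_ne_zero hs30 hP0 hq0.symm
    have he0' : (e : ℚ) ≠ 0 := by exact_mod_cast he0
    have h1 : (N : ℚ) ≠ 0 := by exact_mod_cast hN0
    have h2 : (N' : ℚ) ≠ 0 := by exact_mod_cast hN0'
    have h3 : (r : ℚ) ≠ 0 := by exact_mod_cast hr0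
    have h4 : (B : ℚ) ≠ 0 := by exact_mod_cast hB0
    positivity
  · apply rat_val3 _ A hA
    have hq0v : A.valuation (q0 : ℂ) ^ 2 = A.valuation 3 ^ (2 * s + 2) := by
      rw [hq0, map_mul, mul_pow, hPv, ← map_pow, hs3, hs, ← pow_succ']
    have h6v : A.valuation (6 : ℂ) = A.valuation 3 := by
      have h2 : A.valuation (2 : ℂ) = 1 := by
        have := val_int3 A hA 2 (by norm_num)
        exact_mod_cast this
      have : (6 : ℂ) = 2 * 3 := by norm_num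
      rw [this, map_mul, h2, one_mul]
    have hev : A.valuation (e : ℂ) = 1 := by
      apply val_int3 A hA
      intro hd
      have h1 : (3 : ℤ) ∣ e ^ 2 := Dvd.dvd.pow hd two_ne_zero
      rw [he] at h1
      norm_num at h1
    have h2rv : A.valuation ((2 * r : ℂ)) = 1 := by
      have := val_nat A hA (2 * r) hr.not_three
      push_cast at this
      exact this
    have h8 : A.valuation (((e * 3 ^ s * q0 * N * (2 * r) ^ 3 ^ n /
        (6 ^ 3 ^ (n + 1) * B * N') : ℚ) : ℂ)) ^ 2 = 1 := by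
      push_cast
      rw [map_div₀, map_mul, map_mul, map_mul, map_mul, map_mul, map_mul, map_pow, map_pow,
        map_pow, hev, h2rv, h6v, val_nat A hA N hN, val_nat A hA N' hN', val_nat A hA B hB3]
      simp only [one_mul, mul_one, one_pow]
      rw [div_pow, mul_pow, hq0v, hs, ← pow_mul, ← pow_mul, ← pow_add]
      rw [show s * 2 + (2 * s + 2) = (2 * s + 1) * 2 by ring]
      exact div_self (pow_ne_zero _ hv3)
    exact (pow_eq_one_iff_of_nonneg zero_le two_ne_zero).1 h8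

end SB3
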